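import Pool.Agent.N939.ME.Stm

/-!
PROJECT ME (helper939), step ME18: the norm of `G_j` is `o(√j)` (helper170).
-/

set_option autoImplicit false
open MeasureTheory ProbabilityTheory Filter Topology Finset

namespace Pool.Agent.N170.ME

open Pool.Agent.N939.ME

/-- the cylinder over `(1 - 2/J, 1 - 1/J)` -/
def cyl (S : Type) (J : ℝ) : Set (ℝ × S) := Prod.fst ⁻¹' Set.Ioo (1 - 2 / J) (1 - 1 / J)

lemma cyl_meas (S : Type) [MeasurableSpace S] (J : ℝ) : MeasurableSet (cyl S J) :=
  measurable_fst measurableSet_Ioo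

lemma T_ind {S : Type} [MeasurableSpace S] {Q : Kernel S S} (hT : ∀ (h : ℝ × S → ℝ) (r : ℝ) (x : S),
    TT (Qh Q) h (r, x) = ∫ y, h (r, y) ∂(Q x)) (J : ℝ) (h : ℝ × S → ℝ) :
    TT (Qh Q) ((cyl S J).indicator h) = (cyl S J).indicator (TT (Qh Q) h) := by
  funext p
  obtain ⟨r, x⟩ := p
  rw [hT]
  by_cases hr : r ∈ Set.Ioo (1 - 2 / J) (1 - 1 / J)
  · have e1 : ∀ y : S, (cyl S J).indicator h (r, y) = h (r, y) := fun y =>
      Set.indicator_of_mem (show (r, y) ∈ cyl S J from hr) h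
    simp_rw [e1]
    rw [Set.indicator_of_mem (show (r, x) ∈ cyl S J from hr), hT]
  · have e1 : ∀ y : S, (cyl S J).indicator h (r, y) = 0 := fun y =>
      Set.indicator_of_notMem (show (r, y) ∉ cyl S J from hr) h
    simp_rw [e1]
    rw [Set.indicator_of_notMem (show (r, x) ∉ cyl S J from hr), integral_zero]

/-- the bound for one `J` -/
lemma bound (hHAT : S_HAT) (hTT : S_TT) {S : Type} [MeasurableSpace S] {Q : Kernel S S}
    [IsMarkovKernel Q] {ν : Measure S} [IsProbabilityMeasure ν] (hinv : ν.bind Q = ν)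
    {f : S → ℝ} {Φ Ψ : ℝ × S → ℝ} (hR : Res Q ν f Φ Ψ) {J : ℕ} (hJ : 2 ≤ J) :
    (∫ x, GG Q f J x ^ 2 ∂ν) / J ≤ 32 * ∫ p, (cyl S J).indicator Φ p ^ 2 ∂(nuh ν) := by
  obtain ⟨hT, hb⟩ := hHAT S Q ν hinv
  obtain ⟨m1, -, l1, -, -, -⟩ := hTT S Q ν hinv
  obtain ⟨M1, -, L1, -, -, A1⟩ := hTT (ℝ × S) (Qh Q) (nuh ν) hb
  have hG : ∀ j, Measurable (GG Q f j) ∧ MemLp (GG Q f j) 2 ν := by
    intro j
    induction j with
    | zero => exact ⟨measurable_const, MemLp.zero'⟩
    | succ j ih => exact ⟨hR.mf.add (m1 _ ih.1), hR.lf.add (l1 _ ih.2).1⟩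
  have hGs : ∀ j, MemLp (fun p : ℝ × S => GG Q f j p.2) 2 (nuh ν) := fun j =>
    (hG j).2.comp_snd lam
  have hJ0 : (0 : ℝ) < J := by exact_mod_cast (by omega : 0 < J)
  have hJ2 : (2 : ℝ) ≤ J := by exact_mod_cast hJ
  have hEm := cyl_meas S (J : ℝ)
  -- the differences
  set D : ℕ → ℝ × S → ℝ := fun j => (cyl S (J : ℝ)).indicator (fun p => GG Q f j p.2 - Φ p) with hD
  have lD : ∀ j, MemLp (D j) 2 (nuh ν) := fun j => ((hGs j).sub hR.lΦ).indicator hEm
  have lE : MemLp ((cyl S (J : ℝ)).indicator Φ) 2 (nuh ν) := hR.lΦ.indicator hEm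
  set A := ∫ p, (cyl S (J : ℝ)).indicator Φ p ^ 2 ∂(nuh ν) with hA
  have hA0 : 0 ≤ A := integral_nonneg fun p => sq_nonneg _
  have a0 : ∫ p, D 0 p ^ 2 ∂(nuh ν) = A := by
    rw [hA]
    refine integral_congr_ae (ae_of_all _ fun p => ?_)
    simp only [hD, GG]
    by_cases hp : p ∈ cyl S (J : ℝ)
    · rw [Set.indicator_of_mem hp, Set.indicator_of_mem hp]
      ring
    · rw [Set.indicator_of_notMem hp, Set.indicator_of_notMem hp]
  have hrec : ∀ j, D (j + 1) =ᵐ[nuh ν] fun p => TT (Qh Q) (D j) p +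
      (cyl S (J : ℝ)).indicator (fun p => (1 - p.1) * TT (Qh Q) Φ p) p := by
    intro j
    have h1 := A1 (fun p => GG Q f j p.2) (fun p => -Φ p) ((hGs j).integrable one_le_two)
      (hR.lΦ.integrable one_le_two).neg
    filter_upwards [h1, hR.eΦ] with p hp1 hp2
    have e1 : TT (Qh Q) (D j) p =
        (cyl S (J : ℝ)).indicator (TT (Qh Q) fun p => GG Q f j p.2 - Φ p) p := by
      rw [hD]
      simp only
      rw [T_ind hT]
    rw [e1]
    by_cases hp : p ∈ cyl S (J : ℝ)
    · simp only [hD]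
      rw [Set.indicator_of_mem hp, Set.indicator_of_mem hp, Set.indicator_of_mem hp]
      have e2 : TT (Qh Q) (fun p => GG Q f j p.2 - Φ p) p =
          TT (Qh Q) (fun p => GG Q f j p.2) p + TT (Qh Q) (fun p => -Φ p) p := by
        simpa only [sub_eq_add_neg] using hp1
      have e3 : TT (Qh Q) (fun p => GG Q f j p.2) p = TT Q (GG Q f j) p.2 := by
        obtain ⟨r, x⟩ := p
        rw [hT]
        rfl
      have e4 : TT (Qh Q) (fun p => -Φ p) p = -TT (Qh Q) Φ p := by
        obtain ⟨r, x⟩ := p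
        rw [hT, hT, integral_neg]
      rw [e2, e3, e4]
      simp only [GG]
      linarith
    · simp only [hD]
      rw [Set.indicator_of_notMem hp, Set.indicator_of_notMem hp, Set.indicator_of_notMem hp,
        add_zero]
  have step : ∀ j, ∫ p, D (j + 1) p ^ 2 ∂(nuh ν) ≤
      (1 + 1 / (J : ℝ)) * ∫ p, D j p ^ 2 ∂(nuh ν) + (1 + 1 / (J : ℝ)) * (4 / J) * A := by
    intro j
    obtain ⟨t1, t2, -, -⟩ := L1 _ (lD j)
    obtain ⟨s1, s2, -, -⟩ := L1 _ lE
    have i1 : Integrable (fun p => D (j + 1) p ^ 2) (nuh ν) := (lD (j + 1)).integrable_sq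
    have i2 : Integrable (fun p => TT (Qh Q) (D j) p ^ 2) (nuh ν) := t1.integrable_sq
    have i3 : Integrable (fun p => TT (Qh Q) ((cyl S (J : ℝ)).indicator Φ) p ^ 2) (nuh ν) :=
      s1.integrable_sq
    calc ∫ p, D (j + 1) p ^ 2 ∂(nuh ν) ≤ ∫ p, ((1 + 1 / (J : ℝ)) * TT (Qh Q) (D j) p ^ 2 +
          (1 + 1 / (J : ℝ)) * (4 / J) * TT (Qh Q) ((cyl S (J : ℝ)).indicator Φ) p ^ 2)
            ∂(nuh ν) := by
          refine integral_mono_ae i1 ((i2.const_mul _).add (i3.const_mul _)) ?_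
          filter_upwards [hrec j] with p hp
          rw [hp, T_ind hT J Φ]
          set u := TT (Qh Q) (D j) p
          by_cases hpc : p ∈ cyl S (J : ℝ)
          · rw [Set.indicator_of_mem hpc, Set.indicator_of_mem hpc]
            set v := TT (Qh Q) Φ p
            have hr : p.1 ∈ Set.Ioo (1 - 2 / (J : ℝ)) (1 - 1 / J) := hpc
            have h1 : 0 ≤ 1 - p.1 := by
              have := hr.2
              have : 0 < 1 / (J : ℝ) := by positivity
              linarith
            have h2 : 1 - p.1 ≤ 2 / J := by linarith [hr.1]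
            have h3 : ((1 - p.1) * v) ^ 2 ≤ (2 / J) ^ 2 * v ^ 2 := by
              rw [mul_pow]
              gcongr
            have h4 : (u + (1 - p.1) * v) ^ 2 ≤
                (1 + 1 / (J : ℝ)) * u ^ 2 + (1 + J) * ((1 - p.1) * v) ^ 2 := by
              have h5 : (1 + 1 / (J : ℝ)) * u ^ 2 + (1 + J) * ((1 - p.1) * v) ^ 2 -
                  (u + (1 - p.1) * v) ^ 2 = 1 / (J : ℝ) * (u - J * ((1 - p.1) * v)) ^ 2 := by
                field_simp
                ring
              have h6 : 0 ≤ 1 / (J : ℝ) * (u - J * ((1 - p.1) * v)) ^ 2 := by positivity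
              linarith
            have h7 : (1 + (J : ℝ)) * ((1 - p.1) * v) ^ 2 ≤ (1 + 1 / (J : ℝ)) * (4 / J) * v ^ 2 := by
              calc (1 + (J : ℝ)) * ((1 - p.1) * v) ^ 2 ≤ (1 + (J : ℝ)) * ((2 / J) ^ 2 * v ^ 2) := by
                    gcongr
                _ = _ := by field_simp; ring
            linarith
          · rw [Set.indicator_of_notMem hpc, Set.indicator_of_notMem hpc]
            have : 0 ≤ 1 / (J : ℝ) * u ^ 2 := by positivity
            nlinarith
      _ = (1 + 1 / (J : ℝ)) * ∫ p, TT (Qh Q) (D j) p ^ 2 ∂(nuh ν) +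
          (1 + 1 / (J : ℝ)) * (4 / J) *
            ∫ p, TT (Qh Q) ((cyl S (J : ℝ)).indicator Φ) p ^ 2 ∂(nuh ν) := by
          rw [integral_add (i2.const_mul _) (i3.const_mul _), integral_const_mul,
            integral_const_mul]
      _ ≤ _ := by gcongr
  have ind : ∀ j : ℕ, ∫ p, D j p ^ 2 ∂(nuh ν) ≤ (1 + 1 / (J : ℝ)) ^ j * (1 + 4 * j / J) * A := by
    intro j
    induction j with
    | zero => rw [a0]; simp
    | succ j ih =>
      refine (step j).trans ?_
      have h1 : 1 ≤ (1 + 1 / (J : ℝ)) ^ j := one_le_pow₀ (by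
        have : 0 < 1 / (J : ℝ) := by positivity
        linarith)
      calc _ ≤ (1 + 1 / (J : ℝ)) * ((1 + 1 / (J : ℝ)) ^ j * (1 + 4 * j / J) * A) +
            (1 + 1 / (J : ℝ)) * (4 / J) * A := by gcongr
        _ = (1 + 1 / (J : ℝ)) * A * ((1 + 1 / (J : ℝ)) ^ j * (1 + 4 * j / J) + 1 * (4 / J)) := by
            ring
        _ ≤ (1 + 1 / (J : ℝ)) * A * ((1 + 1 / (J : ℝ)) ^ j * (1 + 4 * j / J) +
            (1 + 1 / (J : ℝ)) ^ j * (4 / J)) := by gcongr
        _ = _ := by
            push_cast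
            ring
  have hexp : (1 + 1 / (J : ℝ)) ^ J ≤ 3 := by
    have h1 : 1 + 1 / (J : ℝ) ≤ Real.exp (1 / J) := by
      have := Real.add_one_le_exp (1 / (J : ℝ))
      linarith
    calc (1 + 1 / (J : ℝ)) ^ J ≤ Real.exp (1 / J) ^ J := by gcongr
      _ = Real.exp 1 := by
        rw [← Real.exp_nat_mul]
        congr 1
        field_simp
      _ ≤ 3 := by linarith [Real.exp_one_lt_d9]
  have aJ : ∫ p, D J p ^ 2 ∂(nuh ν) ≤ 15 * A := by
    refine (ind J).trans ?_
    have h1 : 1 + 4 * (J : ℝ) / J = 5 := by field_simp; norm_num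
    rw [h1]
    calc (1 + 1 / (J : ℝ)) ^ J * 5 * A ≤ 3 * 5 * A := by gcongr
      _ = 15 * A := by ring
  -- the left side
  have lG : ∫ p, (cyl S (J : ℝ)).indicator (fun p => GG Q f J p.2) p ^ 2 ∂(nuh ν) ≤ 32 * A := by
    have i1 : Integrable (fun p => D J p ^ 2) (nuh ν) := (lD J).integrable_sq
    have i2 : Integrable (fun p => (cyl S (J : ℝ)).indicator Φ p ^ 2) (nuh ν) := lE.integrable_sq
    calc _ ≤ ∫ p, (2 * D J p ^ 2 + 2 * (cyl S (J : ℝ)).indicator Φ p ^ 2) ∂(nuh ν) := by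
          refine integral_mono ((hGs J).indicator hEm).integrable_sq
            ((i1.const_mul 2).add (i2.const_mul 2)) fun p => ?_
          simp only [hD]
          by_cases hp : p ∈ cyl S (J : ℝ)
          · rw [Set.indicator_of_mem hp, Set.indicator_of_mem hp, Set.indicator_of_mem hp]
            nlinarith [sq_nonneg (GG Q f J p.2 - Φ p - Φ p)]
          · rw [Set.indicator_of_notMem hp, Set.indicator_of_notMem hp,
              Set.indicator_of_notMem hp]
            norm_num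
      _ = 2 * ∫ p, D J p ^ 2 ∂(nuh ν) + 2 * A := by
          rw [integral_add (i1.const_mul 2) (i2.const_mul 2), integral_const_mul,
            integral_const_mul]
      _ ≤ 32 * A := by linarith
  have eG : ∫ p, (cyl S (J : ℝ)).indicator (fun p => GG Q f J p.2) p ^ 2 ∂(nuh ν) =
      (∫ x, GG Q f J x ^ 2 ∂ν) / J := by
    have e1 : ∀ p : ℝ × S, (cyl S (J : ℝ)).indicator (fun p => GG Q f J p.2) p ^ 2 =
        (Set.Ioo (1 - 2 / (J : ℝ)) (1 - 1 / J)).indicator (fun _ => (1 : ℝ)) p.1 *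
          (GG Q f J p.2) ^ 2 := by
      intro p
      by_cases hp : p ∈ cyl S (J : ℝ)
      · rw [Set.indicator_of_mem hp, Set.indicator_of_mem
          (show p.1 ∈ Set.Ioo (1 - 2 / (J : ℝ)) (1 - 1 / J) from hp), one_mul]
      · rw [Set.indicator_of_notMem hp, Set.indicator_of_notMem
          (show p.1 ∉ Set.Ioo (1 - 2 / (J : ℝ)) (1 - 1 / J) from hp)]
        norm_num
    simp_rw [e1]
    unfold nuh
    rw [integral_prod_mul (fun r => (Set.Ioo (1 - 2 / (J : ℝ)) (1 - 1 / J)).indicator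
      (fun _ => (1 : ℝ)) r) (fun x => GG Q f J x ^ 2)]
    have e2 : ∫ r, (Set.Ioo (1 - 2 / (J : ℝ)) (1 - 1 / J)).indicator (fun _ => (1 : ℝ)) r ∂lam =
        1 / J := by
      rw [integral_indicator measurableSet_Ioo, setIntegral_const, smul_eq_mul, mul_one]
      unfold lam
      rw [measureReal_restrict_apply measurableSet_Ioo]
      have h3 : Set.Ioo (1 - 2 / (J : ℝ)) (1 - 1 / J) ∩ Set.Ioo 0 1 =
          Set.Ioo (1 - 2 / (J : ℝ)) (1 - 1 / J) := by
        refine Set.inter_eq_left.2 fun r hr => ?_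
        have h4 : 2 / (J : ℝ) ≤ 1 := by
          rw [div_le_one hJ0]
          exact hJ2
        have h5 : 0 < 1 / (J : ℝ) := by positivity
        exact ⟨by linarith [hr.1], by linarith [hr.2]⟩
      rw [h3, Real.volume_real_Ioo_of_le (by
        have : 1 / (J : ℝ) ≤ 2 / J := by gcongr; norm_num
        linarith)]
      ring
    rw [e2]
    ring
  rw [← eG]
  exact lG

theorem g2 (hHAT : S_HAT) (hTT : S_TT) : S_G2 := by
  intro S _ Q _ ν _ hinv f Φ Ψ hR
  have iΦ : Integrable (fun p => Φ p ^ 2) (nuh ν) := hR.lΦ.integrable_sq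
  have hlim : Tendsto (fun J : ℕ => ∫ p, (cyl S (J : ℝ)).indicator Φ p ^ 2 ∂(nuh ν)) atTop
      (𝓝 0) := by
    have h0 : (0 : ℝ) = ∫ _p : ℝ × S, (0 : ℝ) ∂(nuh ν) := by simp
    rw [h0]
    refine tendsto_integral_of_dominated_convergence (fun p => Φ p ^ 2) ?_ iΦ ?_ ?_
    · intro J
      exact ((hR.mΦ.indicator (cyl_meas S (J : ℝ))).pow_const 2).aestronglyMeasurable
    · intro J
      refine ae_of_all _ fun p => ?_
      rw [Real.norm_eq_abs, abs_of_nonneg (sq_nonneg _)]
      by_cases hp : p ∈ cyl S (J : ℝ)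
      · rw [Set.indicator_of_mem hp]
      · rw [Set.indicator_of_notMem hp]
        simpa using sq_nonneg (Φ p)
    · refine ae_of_all _ fun p => ?_
      refine tendsto_const_nhds.congr' ?_
      have hl : Tendsto (fun J : ℕ => 1 - 2 / (J : ℝ)) atTop (𝓝 (1 - 0)) :=
        tendsto_const_nhds.sub (tendsto_const_div_atTop_nhds_zero_nat 2)
      rw [sub_zero] at hl
      rcases lt_or_ge p.1 1 with h1 | h1
      · filter_upwards [hl.eventually (lt_mem_nhds h1)] with J hJ
        rw [Set.indicator_of_notMem]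
        · norm_num
        · intro hp
          have : p.1 ∈ Set.Ioo (1 - 2 / (J : ℝ)) (1 - 1 / J) := hp
          linarith [this.1]
      · refine Eventually.of_forall fun J => ?_
        show (0 : ℝ) = (cyl S (J : ℝ)).indicator Φ p ^ 2
        rw [Set.indicator_of_notMem]
        · norm_num
        · intro hp
          have h2 : p.1 ∈ Set.Ioo (1 - 2 / (J : ℝ)) (1 - 1 / J) := hp
          have h3 : 0 ≤ 1 / (J : ℝ) := by positivity
          linarith [h2.2]
  have hlim2 := hlim.const_mul 32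
  rw [mul_zero] at hlim2
  refine squeeze_zero' (Eventually.of_forall fun J => ?_) ?_ hlim2
  · exact div_nonneg (integral_nonneg fun x => sq_nonneg _) (Nat.cast_nonneg J)
  · filter_upwards [eventually_ge_atTop 2] with J hJ
    exact bound hHAT hTT hinv hR hJ

end Pool.Agent.N170.ME
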