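import Pool.Agent.N939.ME.Stm3

/-!
PROJECT ME (helper939), step ME30: square function estimate for contractions (helper170).
-/

set_option autoImplicit false
open MeasureTheory ProbabilityTheory Filter Topology Finset

namespace Pool.Agent.N170.ME

open Pool.Agent.N939.ME

lemma cc_cont (δ : ℕ → ℝ) (p : ℕ) : Continuous (cc δ p) := by
  unfold cc
  fun_prop

/-- convolution with a geometric sequence -/
lemma conv_zero {R : ℝ} (hR0 : 0 < R) (hR1 : R < 1) {ε : ℕ → ℝ} (hε : Tendsto ε atTop (𝓝 0)) :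
    Tendsto (fun n : ℕ => ∑ j ∈ range n, R ^ j * ε (n - 1 - j)) atTop (𝓝 0) := by
  obtain ⟨B, hB⟩ := hε.bddAbove_range
  obtain ⟨B', hB'⟩ := hε.bddBelow_range
  have hbd : ∀ m, |ε m| ≤ |B| + |B'| := by
    intro m
    have h1 : ε m ≤ B := hB ⟨m, rfl⟩
    have h2 : B' ≤ ε m := hB' ⟨m, rfl⟩
    rw [abs_le]
    constructor
    · linarith [neg_abs_le B', abs_nonneg B]
    · linarith [le_abs_self B, abs_nonneg B']
  have key := tendsto_tsum_of_dominated_convergence (𝓕 := atTop)
    (f := fun (n : ℕ) (j : ℕ) => if j < n then R ^ j * ε (n - 1 - j) else 0)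
    (g := fun _ : ℕ => (0 : ℝ)) (bound := fun j : ℕ => R ^ j * (|B| + |B'|))
    ((summable_geometric_of_lt_one hR0.le hR1).mul_right _) (fun j => by
      have h1 : Tendsto (fun n : ℕ => n - 1 - j) atTop atTop := by
        refine tendsto_atTop.2 fun b => ?_
        filter_upwards [eventually_ge_atTop (b + j + 1)] with n hn
        omega
      have h2 := (hε.comp h1).const_mul (R ^ j)
      rw [mul_zero] at h2
      refine h2.congr' ?_
      filter_upwards [eventually_gt_atTop j] with n hn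
      rw [if_pos hn]
      rfl) (Eventually.of_forall fun n j => by
      rw [Real.norm_eq_abs]
      split_ifs
      · rw [abs_mul, abs_of_nonneg (by positivity : 0 ≤ R ^ j)]
        exact mul_le_mul_of_nonneg_left (hbd _) (by positivity)
      · rw [abs_zero]
        positivity)
  rw [tsum_zero] at key
  refine key.congr fun n => ?_
  rw [tsum_eq_sum (s := range n) (fun j hj => by
    rw [mem_range] at hj
    rw [if_neg hj])]
  exact sum_congr rfl fun j hj => by rw [if_pos (mem_range.1 hj)]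

theorem op (_hDL : S_DL) (hOPa : S_OPa) (hOPb : S_OPb) (hOPc : S_OPc) : S_OP := by
  obtain ⟨C0, hC0⟩ := hOPc
  refine ⟨2 * |C0|, by positivity, ?_⟩
  intro δ hδ H _ _ A hA g f hf R hR0 hR1
  obtain ⟨n1, hn1⟩ := hC0 δ hδ R hR0 hR1
  have hAp : ∀ (j : ℕ) (x : H), ‖(A ^ j) x‖ ≤ ‖x‖ := by
    intro j
    induction j with
    | zero => intro x; simp
    | succ j ih =>
      intro x
      rw [pow_succ']
      exact (hA _).trans (ih x)
  set F : ℕ → H := fun N => g - ∑ n ∈ range N, δ n • (A ^ (n + 1)) g with hF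
  have hFs : ∀ N, F (N + 1) = F N - δ N • (A ^ (N + 1)) g := by
    intro N
    simp only [hF, sum_range_succ]
    abel
  have hε : Tendsto (fun m => ‖f - F m‖) atTop (𝓝 0) := by
    have h1 := (tendsto_const_nhds (x := f) (f := atTop (α := ℕ))).sub hf
    rw [sub_self] at h1
    simpa using h1.norm
  have hid : ∀ (n : ℕ) (r : ℝ), ∑ p ∈ range n, cc δ p r • (A ^ p) g =
      ∑ j ∈ range n, r ^ j • (A ^ j) (F (n - 1 - j)) := by
    intro n r
    induction n with
    | zero => simp
    | succ n ih =>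
      rw [sum_range_succ, ih, sum_range_succ]
      have e1 : ∀ j ∈ range n, r ^ j • (A ^ j) (F (n + 1 - 1 - j)) =
          r ^ j • (A ^ j) (F (n - 1 - j)) - (δ (n - 1 - j) * r ^ j) • (A ^ n) g := by
        intro j hj
        rw [mem_range] at hj
        have h1 : n + 1 - 1 - j = (n - 1 - j) + 1 := by omega
        rw [h1, hFs, map_sub, smul_sub, map_smul]
        have h2 : (A ^ j) ((A ^ (n - 1 - j + 1)) g) = (A ^ n) g := by
          rw [← mul_apply_eq_comp, ← pow_add]
          congr 2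
          omega
        rw [h2, smul_smul, mul_comm (r ^ j)]
      rw [sum_congr rfl e1, sum_sub_distrib, ← sum_smul]
      have h3 : n + 1 - 1 - n = 0 := by omega
      have h4 : F 0 = g := by simp [hF]
      rw [h3, h4]
      have h5 : cc δ n r = r ^ n - ∑ j ∈ range n, δ (n - 1 - j) * r ^ j := by
        unfold cc
        congr 1
        rw [← sum_range_reflect]
        refine sum_congr rfl fun j hj => ?_
        rw [mem_range] at hj
        congr 2
        omega
      rw [h5, sub_smul]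
      abel
  set e : ℕ → ℝ := fun n => ∑ j ∈ range n, R ^ j * ‖f - F (n - 1 - j)‖ with he
  have he0 : Tendsto e atTop (𝓝 0) := conv_zero hR0 hR1 hε
  have hev : ∀ᶠ n in atTop, e n < 1 / 2 := he0.eventually (gt_mem_nhds (by norm_num))
  obtain ⟨n2, hn2⟩ := eventually_atTop.1 hev
  refine ⟨max n1 n2, fun n hn => ?_⟩
  have hc := hn1 n ((le_max_left _ _).trans hn)
  have hen := hn2 n ((le_max_right _ _).trans hn)
  have hepos : 0 ≤ e n := sum_nonneg fun j _ => by positivity
  -- Toeplitz forms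
  have hpos : ∀ (n : ℕ) (c : ℕ → ℝ), 0 ≤ ∑ p ∈ range n, ∑ q ∈ range n,
      c p * c q * inner ℝ ((A ^ (Nat.dist p q)) g) g := fun n c =>
    (sq_nonneg _).trans (hOPa H A hA g n c)
  have hb := hOPb (fun m => inner ℝ ((A ^ m) g) g) hpos n C0 R (fun p r => cc δ p r) hR0.le
    (fun p => cc_cont δ p) hc
  have c1 : Continuous fun r : ℝ => ‖∑ p ∈ range n, cc δ p r • (A ^ p) g‖ ^ 2 :=
    (continuous_finsetSum _ fun p _ => (cc_cont δ p).smul continuous_const).norm.pow 2
  have c2 : Continuous fun r : ℝ => ∑ p ∈ range n, ∑ q ∈ range n,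
      cc δ p r * cc δ q r * inner ℝ ((A ^ (Nat.dist p q)) g) g :=
    continuous_finsetSum _ fun p _ => continuous_finsetSum _ fun q _ =>
      ((cc_cont δ p).mul (cc_cont δ q)).mul continuous_const
  have c3 : Continuous fun r : ℝ => ‖∑ j ∈ range n, r ^ j • (A ^ j) f‖ ^ 2 :=
    (continuous_finsetSum _ fun p _ => (continuous_pow p).smul continuous_const).norm.pow 2
  have i1 : ∫ r in (0:ℝ)..R, ‖∑ p ∈ range n, cc δ p r • (A ^ p) g‖ ^ 2 ≤ C0 * ‖g‖ ^ 2 := by
    refine (intervalIntegral.integral_mono_on hR0.le (c1.intervalIntegrable _ _)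
      (c2.intervalIntegrable _ _) fun r _ => hOPa H A hA g n (fun p => cc δ p r)).trans ?_
    refine hb.trans (le_of_eq ?_)
    simp
  have pw : ∀ r ∈ Set.Icc (0 : ℝ) R, ‖∑ j ∈ range n, r ^ j • (A ^ j) f‖ ^ 2 ≤
      2 * ‖∑ p ∈ range n, cc δ p r • (A ^ p) g‖ ^ 2 + 2 * e n ^ 2 := by
    intro r hr
    have h1 : ∑ j ∈ range n, r ^ j • (A ^ j) f = ∑ p ∈ range n, cc δ p r • (A ^ p) g +
        ∑ j ∈ range n, r ^ j • (A ^ j) (f - F (n - 1 - j)) := by
      rw [hid, ← sum_add_distrib]
      refine sum_congr rfl fun j _ => ?_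
      rw [← smul_add, ← map_add]
      congr 2
      abel
    have h2 : ‖∑ j ∈ range n, r ^ j • (A ^ j) (f - F (n - 1 - j))‖ ≤ e n := by
      refine (norm_sum_le _ _).trans (sum_le_sum fun j _ => ?_)
      rw [norm_smul, Real.norm_eq_abs, abs_of_nonneg (pow_nonneg hr.1 j)]
      exact mul_le_mul (pow_le_pow_left₀ hr.1 hr.2 j) (hAp j _) (norm_nonneg _)
        (pow_nonneg hR0.le j)
    rw [h1]
    set u := ∑ p ∈ range n, cc δ p r • (A ^ p) g
    set v := ∑ j ∈ range n, r ^ j • (A ^ j) (f - F (n - 1 - j))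
    have h3 : ‖u + v‖ ^ 2 ≤ (‖u‖ + ‖v‖) ^ 2 := by
      gcongr
      exact norm_add_le u v
    have h4 : ‖v‖ ^ 2 ≤ e n ^ 2 := by gcongr
    nlinarith [sq_nonneg (‖u‖ - ‖v‖)]
  calc ∫ r in (0:ℝ)..R, ‖∑ j ∈ range n, r ^ j • (A ^ j) f‖ ^ 2
      ≤ ∫ r in (0:ℝ)..R, (2 * ‖∑ p ∈ range n, cc δ p r • (A ^ p) g‖ ^ 2 + 2 * e n ^ 2) :=
        intervalIntegral.integral_mono_on hR0.le (c3.intervalIntegrable _ _)
          (((c1.const_mul 2).add continuous_const).intervalIntegrable _ _) pw
    _ = 2 * (∫ r in (0:ℝ)..R, ‖∑ p ∈ range n, cc δ p r • (A ^ p) g‖ ^ 2) +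
          R * (2 * e n ^ 2) := by
        rw [intervalIntegral.integral_add ((c1.const_mul 2).intervalIntegrable _ _)
          (continuous_const.intervalIntegrable _ _), intervalIntegral.integral_const_mul,
          intervalIntegral.integral_const]
        simp
    _ ≤ 2 * |C0| * ‖g‖ ^ 2 + 1 := by
        have h1 : C0 * ‖g‖ ^ 2 ≤ |C0| * ‖g‖ ^ 2 := by
          gcongr
          exact le_abs_self C0
        have h2 : e n ^ 2 ≤ 1 / 2 := by nlinarith
        have h3 : R * (2 * e n ^ 2) ≤ 1 * (2 * (1 / 2)) := by gcongr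
        linarith

end Pool.Agent.N170.ME
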